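import Pool.Agent.W_c2305b_h77.FatDefs

/-!
# MP_c2305b_co, FAT (D4a), (D4b): bounds for `zP` (helper66)
-/

open MeasureTheory Set Module

namespace C2305bFat

/-- (D4a) lower bound for `zP`. -/
theorem zP_ge {ρ ε : ℝ} (hρ : ρ < 2) (hε : 0 < ε) : ∃ δ > (0 : ℝ), ∀ (β bA bB κ a b : ℝ),
    1 / 2 ≤ β → β ≤ bA → bA ≤ ρ * β → β ≤ bB → bB ≤ ρ * β → |κ| ≤ 1 →
    |a| ≤ δ → -2 ≤ b → b ≤ δ →
    (1 / 8) * (max 0 a + max 0 (-b)) - (ρ / 2 + ε) * (max 0 (-a) + max 0 b) ≤ zP β bA bB κ a b := by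
  refine ⟨min (1 / 16) (ε / 16), by positivity, ?_⟩
  intro β bA bB κ a b hβ hA1 hA2 hB1 hB2 hκ ha hb1 hb2
  set δ : ℝ := min (1 / 16) (ε / 16) with hδ
  have hδ0 : 0 < δ := by positivity
  have hδ1 : δ ≤ 1 / 16 := min_le_left _ _
  have hδ2 : δ ≤ ε / 16 := min_le_right _ _
  have hβ0 : 0 < β := by linarith
  obtain ⟨hκ1, hκ2⟩ := abs_le.mp hκ
  obtain ⟨ha1, ha2⟩ := abs_le.mp ha
  have hab : -(1 / 8) ≤ a * b := by
    rcases le_total 0 a with h | h <;> rcases le_total 0 b with h' | h' <;> nlinarith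
  have hD : 0 < 2 * β * (1 + a * b) := by
    have : 0 < 1 + a * b := by linarith
    positivity
  unfold zP
  rw [le_div_iff₀ hD]
  rcases le_total 0 a with h | h <;> rcases le_total 0 b with h' | h'
  · rw [max_eq_right h, max_eq_left (by linarith : -b ≤ 0), max_eq_left (by linarith : -a ≤ 0),
      max_eq_right h']
    have e1 : 0 ≤ a * b := mul_nonneg h h'
    have e2 : a * b ≤ a * δ := mul_le_mul_of_nonneg_left hb2 h
    have e3 : a * b ≤ 1 / 8 := by nlinarith
    have e4 : -(a * b) ≤ a * b * κ := by nlinarith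
    have e5 : a * β ≤ a * bB := mul_le_mul_of_nonneg_left hB1 h
    have e6 : b * bA ≤ b * (ρ * β) := mul_le_mul_of_nonneg_left hA2 h'
    have e7 : a * δ ≤ a * (1 / 16) := mul_le_mul_of_nonneg_left hδ1 h
    have e8 : a * (1 / 2) ≤ a * β := mul_le_mul_of_nonneg_left hβ h
    have e9 : a * β * (a * b) ≤ a * β * (1 / 8) :=
      mul_le_mul_of_nonneg_left e3 (mul_nonneg h hβ0.le)
    have e10 : 0 ≤ (ρ / 2 + ε) * (b * β) * (a * b) := by
      have hρ1 : 1 ≤ ρ := by
        by_contra hc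
        push Not at hc
        nlinarith
      positivity
    have e11 : 0 ≤ ε * (b * β) := by positivity
    nlinarith
  · rw [max_eq_right h, max_eq_right (by linarith : 0 ≤ -b), max_eq_left (by linarith : -a ≤ 0),
      max_eq_left h']
    have e1 : a * b ≤ 0 := mul_nonpos_of_nonneg_of_nonpos h h'
    have e2 : -(a * b) ≤ δ * (-b) := by nlinarith
    have e3 : -(-(a * b)) ≤ a * b * κ := by nlinarith
    have e5 : a * β ≤ a * bB := mul_le_mul_of_nonneg_left hB1 h
    have e6 : (-b) * β ≤ (-b) * bA := mul_le_mul_of_nonneg_left hA1 (by linarith)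
    have e7 : δ * (-b) ≤ (1 / 16) * (-b) := mul_le_mul_of_nonneg_right hδ1 (by linarith)
    have e8 : (-b) * (1 / 2) ≤ (-b) * β := mul_le_mul_of_nonneg_left hβ (by linarith)
    have e9 : (a + -b) * β * (a * b) ≤ 0 :=
      mul_nonpos_of_nonneg_of_nonpos (by nlinarith) e1
    have e12 : 0 ≤ a * β := by positivity
    nlinarith
  · rw [max_eq_left h, max_eq_left (by linarith : -b ≤ 0), max_eq_right (by linarith : 0 ≤ -a),
      max_eq_right h']
    have hρ1 : 1 ≤ ρ := by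
      by_contra hc
      push Not at hc
      nlinarith
    have e1 : a * b ≤ 0 := mul_nonpos_of_nonpos_of_nonneg h h'
    have e2 : -(a * b) ≤ δ * (-a) := by nlinarith
    have e2' : -(a * b) ≤ δ * b := by nlinarith
    have e3 : -(-(a * b)) ≤ a * b * κ := by nlinarith
    have e5 : (-a) * bB ≤ (-a) * (ρ * β) := mul_le_mul_of_nonneg_left hB2 (by linarith)
    have e6 : b * bA ≤ b * (ρ * β) := mul_le_mul_of_nonneg_left hA2 h'
    have e7 : δ * (-a) ≤ (ε / 16) * (-a) := mul_le_mul_of_nonneg_right hδ2 (by linarith)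
    have e8 : (ε / 16) * (-a) * (1 / 2) ≤ (ε / 16) * (-a) * β :=
      mul_le_mul_of_nonneg_left hβ (mul_nonneg (by linarith) (by linarith))
    have s0 : 0 ≤ β * (-a + b) := mul_nonneg hβ0.le (by linarith)
    have e9 : -(a * b) ≤ (ε / 16) * (1 / 16) := by
      have : δ * (-a) ≤ (ε / 16) * (1 / 16) :=
        mul_le_mul hδ2 (by linarith) (by linarith) (by positivity)
      linarith
    have e9' : -(a * b) ≤ 1 / 256 := by
      have : δ * (-a) ≤ (1 / 16) * (1 / 16) :=
        mul_le_mul hδ1 (by linarith) (by linarith) (by norm_num)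
      linarith
    have e10 : β * (-a + b) * (-(a * b)) ≤ β * (-a + b) * ((ε / 16) * (1 / 16)) :=
      mul_le_mul_of_nonneg_left e9 s0
    have e10' : β * (-a + b) * (-(a * b)) ≤ β * (-a + b) * (1 / 256) :=
      mul_le_mul_of_nonneg_left e9' s0
    have e11 : ρ * (β * (-a + b) * (-(a * b))) ≤ 2 * (β * (-a + b) * ((ε / 16) * (1 / 16))) := by
      have t1 : 0 ≤ β * (-a + b) * (-(a * b)) := mul_nonneg s0 (by linarith)
      have t2 : ρ * (β * (-a + b) * (-(a * b))) ≤ 2 * (β * (-a + b) * (-(a * b))) :=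
        mul_le_mul_of_nonneg_right hρ.le t1
      linarith
    have e12 : ε * (β * (-a + b) * (-(a * b))) ≤ ε * (β * (-a + b) * (1 / 256)) :=
      mul_le_mul_of_nonneg_left e10' hε.le
    have e13 : 0 ≤ ε * (β * (-a + b)) := mul_nonneg hε.le s0
    have e14 : 0 ≤ ε * β * b := by positivity
    nlinarith
  · rw [max_eq_left h, max_eq_right (by linarith : 0 ≤ -b), max_eq_right (by linarith : 0 ≤ -a),
      max_eq_left h']
    have hρ1 : 1 ≤ ρ := by
      by_contra hc
      push Not at hc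
      nlinarith
    have e1 : 0 ≤ a * b := mul_nonneg_of_nonpos_of_nonpos h h'
    have e2 : a * b ≤ δ * (-b) := by nlinarith
    have e3 : -(a * b) ≤ a * b * κ := by nlinarith
    have e4 : a * b ≤ 1 / 8 := by nlinarith
    have e5 : (-a) * bB ≤ (-a) * (ρ * β) := mul_le_mul_of_nonneg_left hB2 (by linarith)
    have e6 : (-b) * β ≤ (-b) * bA := mul_le_mul_of_nonneg_left hA1 (by linarith)
    have e7 : δ * (-b) ≤ (1 / 16) * (-b) := mul_le_mul_of_nonneg_right hδ1 (by linarith)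
    have e8 : (-b) * (1 / 2) ≤ (-b) * β := mul_le_mul_of_nonneg_left hβ (by linarith)
    have e9 : (-b) * β * (a * b) ≤ (-b) * β * (1 / 8) :=
      mul_le_mul_of_nonneg_left e4 (mul_nonneg (by linarith) hβ0.le)
    have e10 : 0 ≤ (ρ / 2 + ε) * ((-a) * β) * (a * b) := by
      have : 0 ≤ -a := by linarith
      positivity
    have e11 : 0 ≤ ε * ((-a) * β) := by
      have : 0 ≤ -a := by linarith
      positivity
    nlinarith

/-- (D4b) `zP` for small slopes. -/
theorem zP_fine {ρ : ℝ} (hρ : ρ < 2) : ∃ C > (0 : ℝ), ∀ (β bA bB κ a b w : ℝ),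
    1 / 2 ≤ β → β ≤ bA → bA ≤ ρ * β → β ≤ bB → bB ≤ ρ * β → |κ| ≤ 1 →
    |a| ≤ w → |b| ≤ w → w ≤ 1 / 4 →
    |zP β bA bB κ a b - (a * bB - b * bA) / (2 * β)| ≤ C * w ^ 2 := by
  refine ⟨3, by norm_num, ?_⟩
  intro β bA bB κ a b w hβ hA1 hA2 hB1 hB2 hκ ha hb hw
  have hβ0 : 0 < β := by linarith
  have hw0 : 0 ≤ w := le_trans (abs_nonneg a) ha
  have hab : |a * b| ≤ w ^ 2 := by
    rw [abs_mul, pow_two]
    exact mul_le_mul ha hb (abs_nonneg _) hw0
  have hw2 : w ^ 2 ≤ 1 / 16 := by nlinarith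
  obtain ⟨h1, h2⟩ := abs_le.mp hab
  have hD0 : 15 / 16 ≤ 1 + a * b := by linarith
  have hD1 : (0 : ℝ) < 1 + a * b := by linarith
  have key : zP β bA bB κ a b - (a * bB - b * bA) / (2 * β)
      = (a * b) * (2 * κ - (a * bB - b * bA)) / (2 * β * (1 + a * b)) := by
    unfold zP
    field_simp
    ring
  rw [key, abs_div, abs_mul, abs_of_pos (by positivity : 0 < 2 * β * (1 + a * b))]
  rw [div_le_iff₀ (by positivity)]
  have hbA : 0 < bA := by linarith
  have hbB : 0 < bB := by linarith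
  have hN : |2 * κ - (a * bB - b * bA)| ≤ 2 + w * (bA + bB) := by
    have t1 : |2 * κ - (a * bB - b * bA)| ≤ |2 * κ| + |a * bB - b * bA| := abs_sub _ _
    have t2 : |a * bB - b * bA| ≤ |a * bB| + |b * bA| := abs_sub _ _
    have t3 : |a * bB| ≤ w * bB := by
      rw [abs_mul, abs_of_pos hbB]
      exact mul_le_mul_of_nonneg_right ha hbB.le
    have t4 : |b * bA| ≤ w * bA := by
      rw [abs_mul, abs_of_pos hbA]
      exact mul_le_mul_of_nonneg_right hb hbA.le
    have t5 : |2 * κ| ≤ 2 := by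
      rw [abs_mul, abs_of_pos (by norm_num : (0 : ℝ) < 2)]
      linarith
    linarith
  have hs : 2 + w * (bA + bB) ≤ 5 * β := by
    have u1 : bA + bB ≤ 4 * β := by nlinarith
    have u2 : w * (bA + bB) ≤ (1 / 4) * (4 * β) :=
      mul_le_mul hw u1 (by linarith) (by norm_num)
    linarith
  calc |a * b| * |2 * κ - (a * bB - b * bA)| ≤ w ^ 2 * (5 * β) :=
        mul_le_mul hab (le_trans hN hs) (abs_nonneg _) (by positivity)
    _ ≤ 3 * w ^ 2 * (2 * β * (1 + a * b)) := by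
        have : 0 ≤ w ^ 2 * β := by positivity
        nlinarith [mul_le_mul_of_nonneg_left hD0 this]

end C2305bFat
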